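import Pool.Agent.H54.RH.Targets

/-!
MP_def5ca_co, board rhx_modules, row SN.
-/

set_option autoImplicit false

open Pool.Agent.H54.RH

namespace Pool.Agent.H17.RHX

variable {n : ℕ}

theorem card_act_cons (c : Fin 3) (h : W n) :
    (act (Fin.cons c h : W (n + 1))).card = (act h).card + if c = 1 then 1 else 0 := by
  unfold act
  rw [Fin.card_filter_univ_succ]
  simp only [Fin.cons_zero, Fin.cons_succ]
  split_ifs <;> rfl

theorem card_two_cons (c : Fin 3) (h : W n) :
    (two (Fin.cons c h : W (n + 1))).card = (two h).card + if c = 2 then 1 else 0 := by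
  unfold two
  rw [Fin.card_filter_univ_succ]
  simp only [Fin.cons_zero, Fin.cons_succ]
  split_ifs <;> rfl

theorem card_act_upd {h : W n} {w : Fin n} {c : Fin 3} (hw : h w = 1) (hc : c ≠ 1) :
    (act (Function.update h w c)).card + 1 = (act h).card := by
  have h1 : act (Function.update h w c) = (act h).erase w := by
    ext t
    unfold act
    rw [Finset.mem_erase, Finset.mem_filter, Finset.mem_filter]
    by_cases ht : t = w
    · subst ht
      simp [hc]
    · simp [ht]
  have h2 : w ∈ act h := by
    unfold act
    rw [Finset.mem_filter]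
    exact ⟨Finset.mem_univ _, hw⟩
  rw [h1]
  exact Finset.card_erase_add_one h2

theorem two_upd0 {h : W n} {w : Fin n} (hw : h w = 1) :
    two (Function.update h w 0) = two h := by
  ext t
  unfold two
  rw [Finset.mem_filter, Finset.mem_filter]
  by_cases ht : t = w
  · subst ht
    simp [hw]
  · simp [ht]

theorem card_two_upd2 {h : W n} {w : Fin n} (hw : h w = 1) :
    (two (Function.update h w 2)).card = (two h).card + 1 := by
  have h1 : two (Function.update h w 2) = insert w (two h) := by
    ext t
    unfold two
    rw [Finset.mem_insert, Finset.mem_filter, Finset.mem_filter]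
    by_cases ht : t = w
    · subst ht
      simp
    · simp [ht]
  have h2 : w ∉ two h := by
    unfold two
    rw [Finset.mem_filter, hw]
    rintro ⟨-, h⟩
    exact absurd h (by decide)
  rw [h1]
  exact Finset.card_insert_of_notMem h2

theorem sw_up (h : W n) (k l : Fin n) : sw (up h) k.succ l.succ = up (sw h k l) := by
  funext t
  unfold sw up
  refine Fin.cases ?_ (fun t => ?_) t
  · rw [if_neg (Fin.succ_ne_zero k).symm, if_neg (Fin.succ_ne_zero l).symm]
    simp only [Fin.cons_zero]
  · simp only [Fin.cons_succ, Fin.succ_inj]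

theorem btw_up (h : W n) (k l : Fin n) : Pool.Agent.H54.RH.btw (up h) k.succ l.succ =
    Pool.Agent.H54.RH.btw h k l := by
  unfold Pool.Agent.H54.RH.btw up
  rw [Fin.card_filter_univ_succ]
  simp only [Fin.cons_zero, Fin.cons_succ, Fin.succ_lt_succ_iff]
  rw [if_neg]
  rintro ⟨h1, -⟩
  exact absurd h1 (by decide)

theorem pf_SN (h0 : T_SA) : T_SN := by
  intro n b M S q u w hG hF hSM hO hSq hw hu
  have hSA := h0 n b M q hG hF
  have hqu : ∀ t, t ≠ w → u t = q t := by
    intro t ht
    rw [hu, Function.update_of_ne ht]
  have huw : u w = 0 := by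
    rw [hu, Function.update_self]
  have hcu : (act u).card = 3 := by
    have h1 := card_act_upd (c := 0) hw (by decide)
    rw [← hu, hF.1] at h1
    omega
  have htu : two u = two q := by
    rw [hu]
    exact two_upd0 hw
  refine ⟨⟨?_, ?_⟩, ?_, ?_, ?_⟩
  · rw [card_act_cons, hcu, if_pos rfl]
  · intro t ht
    rw [hSA]
    refine Or.inr ⟨?_, ?_⟩
    · unfold blk
      rw [Finset.mem_filter]
      refine ⟨Finset.mem_univ _, ?_, ?_, ?_⟩
      · intro j hj
        have hjw : j ≠ w := fun h => hj (h ▸ hw)
        have hne : t ≠ j.succ := by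
          rintro rfl
          rw [Fin.cons_succ, hqu j hjw] at ht
          exact hj ht
        rw [Function.update_of_ne hne.symm, Fin.cons_succ, hqu j hjw]
      · have h1 := card_act_upd (c := 2) ht (by decide)
        rw [card_act_cons, hcu, if_pos rfl] at h1
        omega
      · rw [card_two_upd2 ht, card_two_cons, htu, if_neg (by decide)]
    · by_cases ht0 : t = 0
      · rw [ht0, Function.update_self]
        decide
      · rw [Function.update_of_ne (fun h => ht0 h.symm), Fin.cons_zero]
        decide
  · intro g hg
    rw [Finset.mem_image] at hg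
    obtain ⟨h, hh, rfl⟩ := hg
    rw [hSA]
    refine Or.inl ⟨h, hSM hh, ?_, rfl⟩
    rintro w' hw' rfl
    exact hSq w' hw' hh
  · rintro ⟨sg, hsg⟩
    apply hO
    refine ⟨fun h => sg (up h), ?_⟩
    intro h hh k l hk hl hs
    have h1 := hsg (up h) (Finset.mem_image_of_mem up hh) k.succ l.succ
      (by unfold up; rw [Fin.cons_succ]; exact hk) (by unfold up; rw [Fin.cons_succ]; exact hl)
      (by rw [sw_up]; exact Finset.mem_image_of_mem up hs)
    rw [sw_up, btw_up] at h1
    exact h1
  · intro t ht hmem
    rw [Finset.mem_image] at hmem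
    obtain ⟨h, -, hh⟩ := hmem
    have h1 := congrFun hh 0
    unfold up at h1
    rw [Fin.cons_zero] at h1
    by_cases ht0 : t = 0
    · rw [ht0, Function.update_self] at h1
      exact absurd h1 (by decide)
    · rw [Function.update_of_ne (fun h => ht0 h.symm), Fin.cons_zero] at h1
      exact absurd h1 (by decide)

end Pool.Agent.H17.RHX
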